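import Pool.Agent.N488.P24.SymCore
import Pool.Agent.N877.P24.Defs2

/-!
# The regularized counting cocycle of the forms `FmC` with a sign character

Adapted from `N488/P24/SymCore.lean` and `N973/P15/SymB.lean`.
-/

set_option autoImplicit false

namespace Pool.Agent.N490.P24

open Pool.Agent.N877.P24
open Pool.Agent.N488.P24 (ev act ev_act act_inv eqv chi chi_sq wt ev10 refl ev_neg wt_neg)

noncomputable section

/-- the forms with `B = 1 mod 4` -/
def inC (q : ℤ × ℤ × ℤ) : Prop :=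
  q.2.1 ^ 2 - 4 * q.1 * q.2.2 = 1 ∧ (2 : ℤ) ∣ q.1 ∧ ¬ (3 : ℤ) ∣ q.1 ∧ q.2.1 % 4 = 1

theorem A_ne {q : ℤ × ℤ × ℤ} (hq : inC q) : q.1 ≠ 0 := by
  intro h0
  apply hq.2.2.1
  rw [h0]
  exact dvd_zero 3

theorem odd_ad {a b c d : ℤ} (h : a * d - b * (6 * c) = 1) : a % 2 = 1 ∧ d % 2 = 1 := by
  have h5 : a * d = 2 * (3 * b * c) + 1 := by linear_combination h
  have h6 : (a * d) % 2 = 1 := by omega
  rw [Int.mul_emod] at h6
  constructor
  · rcases Int.emod_two_eq_zero_or_one a with h7 | h7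
    · rw [h7, zero_mul] at h6
      omega
    · exact h7
  · rcases Int.emod_two_eq_zero_or_one d with h7 | h7
    · rw [h7, mul_zero] at h6
      omega
    · exact h7

theorem inC_act {a b c d : ℤ} (h : a * d - b * (6 * c) = 1) {q : ℤ × ℤ × ℤ}
    (hq : inC q) : inC (act a b (6 * c) d q) := by
  obtain ⟨A, B, C⟩ := q
  obtain ⟨h1, ⟨A1, h2⟩, h0, h3⟩ := hq
  simp only at h1 h2 h0 h3
  refine ⟨?_, ?_, ?_, ?_⟩
  · unfold act
    simp only
    linear_combination (a * d - b * (6 * c)) ^ 2 * h1 + (a * d - b * (6 * c) + 1) * h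
  · unfold act
    simp only
    exact ⟨A1 * a ^ 2 + B * a * (3 * c) + C * c ^ 2 * 18, by rw [h2]; ring⟩
  · unfold act
    simp only
    intro h4
    have h5 : (3 : ℤ) ∣ A * (a * a) := by
      have h6 : (3 : ℤ) ∣ B * a * (6 * c) + C * (6 * c) ^ 2 :=
        ⟨2 * (B * a * c + C * c ^ 2 * 6), by ring⟩
      have h7 := dvd_sub h4 h6
      have e : A * a ^ 2 + B * a * (6 * c) + C * (6 * c) ^ 2 -
        (B * a * (6 * c) + C * (6 * c) ^ 2) = A * (a * a) := by ring
      rwa [e] at h7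
    have n3 : ¬ (3 : ℤ) ∣ a := by
      rintro ⟨k, rfl⟩
      have : (3 : ℤ) ∣ 1 := ⟨k * d - b * (2 * c), by linear_combination -h⟩
      norm_num at this
    rcases Int.prime_three.dvd_or_dvd h5 with h6 | h6
    · exact h0 h6
    · rcases Int.prime_three.dvd_or_dvd h6 with h6 | h6 <;> exact n3 h6
  · unfold act
    simp only
    have h4 : 2 * A * a * b + B * (a * d + b * (6 * c)) + 2 * C * (6 * c) * d =
        B + 4 * (A1 * a * b + 3 * B * b * c + 3 * C * c * d) := by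
      rw [h2]; linear_combination B * h
    rw [h4]
    omega

theorem inC_act_iff {a b c d : ℤ} (h : a * d - b * (6 * c) = 1) {q : ℤ × ℤ × ℤ} :
    inC (act a b (6 * c) d q) ↔ inC q := by
  refine ⟨fun hq => ?_, inC_act h⟩
  have h' : d * a - (-b) * (6 * (-c)) = 1 := by linear_combination h
  have h1 := inC_act h' hq
  have e : (6 * (-c) : ℤ) = -(6 * c) := by ring
  rwa [e, act_inv h] at h1

theorem wt_act {a b c d : ℤ} (h : a * d - b * (6 * c) = 1) {q : ℤ × ℤ × ℤ} (hq : inC q) :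
    wt (act a b (6 * c) d q) = chi b c * wt q := by
  obtain ⟨A, B, C⟩ := q
  obtain ⟨h1, ⟨A1, h2⟩, h0, h3⟩ := hq
  simp only at h1 h2 h0 h3
  obtain ⟨ha, hd⟩ := odd_ad h
  obtain ⟨a1, rfl⟩ : ∃ a1, a = 2 * a1 + 1 := ⟨a / 2, by omega⟩
  obtain ⟨d1, rfl⟩ : ∃ d1, d = 2 * d1 + 1 := ⟨d / 2, by omega⟩
  obtain ⟨B1, rfl⟩ : ∃ B1, B = 2 * B1 + 1 := ⟨B / 2, by omega⟩
  subst h2
  have e1 : (act (2 * a1 + 1) b (6 * c) (2 * d1 + 1) (2 * A1, 2 * B1 + 1, C)).1 / 2 +
      (act (2 * a1 + 1) b (6 * c) (2 * d1 + 1) (2 * A1, 2 * B1 + 1, C)).2.2 =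
      (2 * A1 / 2 + C) + (b + c) + 2 * (2 * A1 * a1 ^ 2 + 2 * A1 * a1 + 6 * B1 * a1 * c +
        3 * B1 * c + 3 * a1 * c + c + 9 * C * c ^ 2 + A1 * b ^ 2 + 2 * B1 * b * d1 + B1 * b +
        b * d1 + 2 * C * d1 ^ 2 + 2 * C * d1) := by
    unfold act
    simp only
    have e2 : 2 * A1 * (2 * a1 + 1) ^ 2 + (2 * B1 + 1) * (2 * a1 + 1) * (6 * c) +
        C * (6 * c) ^ 2 = 2 * (A1 * (2 * a1 + 1) ^ 2 + 3 * (2 * B1 + 1) * (2 * a1 + 1) * c +
        18 * C * c ^ 2) := by ring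
    have e3 : 2 * A1 / 2 = A1 := by omega
    rw [e2, Int.mul_ediv_cancel_left _ (by norm_num : (2 : ℤ) ≠ 0), e3]
    ring
  unfold wt chi
  rw [e1]
  simp only
  generalize (2 * A1 * a1 ^ 2 + 2 * A1 * a1 + 6 * B1 * a1 * c +
        3 * B1 * c + 3 * a1 * c + c + 9 * C * c ^ 2 + A1 * b ^ 2 + 2 * B1 * b * d1 + B1 * b +
        b * d1 + 2 * C * d1 ^ 2 + 2 * C * d1) = Z
  generalize 2 * A1 / 2 + C = W
  by_cases h5 : (2 : ℤ) ∣ b + c
  · by_cases h6 : (2 : ℤ) ∣ W
    · rw [if_pos h5, if_pos h6, if_pos (by omega)]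
      norm_num
    · rw [if_pos h5, if_neg h6, if_neg (by omega)]
      norm_num
  · by_cases h6 : (2 : ℤ) ∣ W
    · rw [if_neg h5, if_pos h6, if_neg (by omega)]
      norm_num
    · rw [if_neg h5, if_neg h6, if_pos (by omega)]
      norm_num

open Classical in
/-- the regularized term -/
def T (x M : ℤ) (q : ℤ × ℤ × ℤ) : ℤ :=
  if inC q ∧ ev q x M ≠ 0 then wt q * (Int.sign (ev q x M) - Int.sign q.1) else 0

/-- the regularized counting function -/
def G (x M : ℤ) : ℤ := ∑ᶠ q, T x M q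

open Classical in
/-- the boundary term of a form -/
def Zt (x M c d : ℤ) (q : ℤ × ℤ × ℤ) : ℤ :=
  if inC q ∧ ev q x M = 0 then wt q * (Int.sign q.1 - Int.sign (ev q d (-c))) else 0

open Classical in
/-- the part with `B = 1` -/
def f1 (x M : ℤ) (q : ℤ × ℤ × ℤ) : ℤ :=
  if inC q ∧ 0 < q.1 ∧ ev q x M < 0 then cC q else 0

open Classical in
/-- the part with `B = 3` -/
def f3 (x M : ℤ) (q : ℤ × ℤ × ℤ) : ℤ :=
  if inC (-q) ∧ 0 < q.1 ∧ ev q x M < 0 then cC q else 0

theorem inC_even {A B C : ℤ} (hq : inC (A, B, C)) : (2 : ℤ) ∣ A := hq.2.1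

theorem cC_pos {q : ℤ × ℤ × ℤ} (hq : inC q) : cC q = wt q := by
  unfold cC wt
  rw [if_pos hq.2.2.2, one_mul]

theorem cC_neg {q : ℤ × ℤ × ℤ} (hq : inC q) : cC (-q) = -wt q := by
  obtain ⟨A, B, C⟩ := q
  have h3 := hq.2.2.2
  simp only at h3
  have h4 : ¬ (-B) % 4 = 1 := by omega
  unfold cC
  simp only [Prod.fst_neg, Prod.snd_neg]
  rw [if_neg h4]
  have h5 := wt_neg (A := A) (B := B) (B' := -B) (C := C) (inC_even hq)
  unfold wt at h5 ⊢
  simp only at h5 ⊢
  rw [h5]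
  ring

theorem key {A B C : ℤ} (hd : B ^ 2 - 4 * A * C = 1) (x M : ℤ) :
    4 * (A * (A * x ^ 2 + B * x * M + C * M ^ 2)) = (2 * A * x + B * M) ^ 2 - M ^ 2 := by
  linear_combination -M ^ 2 * hd

theorem bound {x M : ℤ} {q : ℤ × ℤ × ℤ} (hd : q.2.1 ^ 2 - 4 * q.1 * q.2.2 = 1)
    (h : q.1 * ev q x M < 0) : 4 * |q.1| ≤ M ^ 2 ∧ |2 * q.1 * x + q.2.1 * M| < |M| := by
  have h1 : 4 * (q.1 * ev q x M) = (2 * q.1 * x + q.2.1 * M) ^ 2 - M ^ 2 := key hd x M
  have h2 : (2 * q.1 * x + q.2.1 * M) ^ 2 < M ^ 2 := by nlinarith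
  have h3 := sq_lt_sq.1 h2
  refine ⟨?_, h3⟩
  have h4 : ev q x M ≠ 0 := by
    intro h5; rw [h5, mul_zero] at h; exact lt_irrefl _ h
  have h5 : 1 ≤ |ev q x M| := Int.one_le_abs h4
  have h6 : |q.1| * |ev q x M| = -(q.1 * ev q x M) := by
    rw [← abs_mul, abs_of_neg h]
  have h7 : |q.1| ≤ |q.1| * |ev q x M| := le_mul_of_one_le_right (abs_nonneg _) h5
  nlinarith [sq_nonneg (2 * q.1 * x + q.2.1 * M)]

theorem fin_S (x M : ℤ) : {q | inC q ∧ q.1 * ev q x M < 0}.Finite := by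
  rcases eq_or_ne M 0 with rfl | hM
  · have : {q | inC q ∧ q.1 * ev q x 0 < 0} = ∅ := by
      rw [Set.eq_empty_iff_forall_notMem]
      rintro q ⟨h1, h1'⟩
      have h2 := (bound h1.1 h1').2
      rw [abs_zero] at h2
      exact absurd (abs_nonneg _) (not_le.2 h2)
    rw [this]
    exact Set.finite_empty
  · set K : ℤ := M ^ 2 with hK
    set L : ℤ := |M| + 2 * K * |x| with hL
    set R : ℤ := L ^ 2 + 4 with hR
    refine ((Set.finite_Icc (-K) K).prod ((Set.finite_Icc (-L) L).prod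
      (Set.finite_Icc (-R) R))).subset ?_
    rintro q ⟨h1, h1'⟩
    obtain ⟨h2, h3⟩ := bound h1.1 h1'
    have hA : |q.1| ≤ K := by
      have := abs_nonneg q.1
      omega
    have hM1 : 1 ≤ |M| := Int.one_le_abs hM
    have hB : |q.2.1| ≤ L := by
      have h4 : |q.2.1 * M| ≤ |2 * q.1 * x + q.2.1 * M| + |2 * q.1 * x| := by
        have h5 : q.2.1 * M = (2 * q.1 * x + q.2.1 * M) - 2 * q.1 * x := by ring
        calc |q.2.1 * M| = |(2 * q.1 * x + q.2.1 * M) - 2 * q.1 * x| := by rw [← h5]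
          _ ≤ _ := abs_sub _ _
      have h6 : |2 * q.1 * x| ≤ 2 * K * |x| := by
        rw [abs_mul, abs_mul]
        have : |(2:ℤ)| = 2 := rfl
        rw [this]
        have := abs_nonneg x
        nlinarith
      have h7 : |q.2.1| ≤ |q.2.1 * M| := by
        rw [abs_mul]
        exact le_mul_of_one_le_right (abs_nonneg _) hM1
      rw [hL]
      linarith
    have hC : |q.2.2| ≤ R := by
      have h4 : 4 * (q.1 * q.2.2) = q.2.1 ^ 2 - 1 := by
        have := h1.1
        linarith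
      have h5 : 4 * (|q.1| * |q.2.2|) ≤ q.2.1 ^ 2 + 4 := by
        rw [← abs_mul]
        rcases abs_cases (q.1 * q.2.2) with ⟨h6, _⟩ | ⟨h6, _⟩ <;> rw [h6] <;>
          nlinarith [sq_nonneg q.2.1]
      have h6 : q.2.1 ^ 2 ≤ L ^ 2 := by
        rw [← sq_abs q.2.1]
        exact pow_le_pow_left₀ (abs_nonneg _) hB 2
      have h7 : 1 ≤ |q.1| := Int.one_le_abs (A_ne h1)
      have h8 : |q.2.2| ≤ |q.1| * |q.2.2| := le_mul_of_one_le_left (abs_nonneg _) h7
      have h9 := abs_nonneg q.2.2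
      rw [hR]
      linarith
    refine ⟨?_, ?_, ?_⟩
    · exact abs_le.1 hA
    · exact abs_le.1 hB
    · exact abs_le.1 hC

theorem T_split (x M : ℤ) (q : ℤ × ℤ × ℤ) :
    T x M q = (-2) * f1 x M q + (-2) * f3 x M (-q) := by
  unfold T f1 f3
  rw [neg_neg, ev_neg]
  simp only [Prod.fst_neg]
  by_cases hq : inC q
  · have h2 := A_ne hq
    rw [cC_pos hq, cC_neg hq]
    rcases lt_trichotomy (ev q x M) 0 with h5 | h5 | h5
    · rw [if_pos ⟨hq, h5.ne⟩]
      have n2 : ¬ (inC q ∧ 0 < -q.1 ∧ -ev q x M < 0) := fun h => by linarith [h.2.2]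
      rw [if_neg n2, Int.sign_eq_neg_one_of_neg h5]
      rcases lt_or_gt_of_ne h2 with h4 | h4
      · have n1 : ¬ (inC q ∧ 0 < q.1 ∧ ev q x M < 0) := fun h => by linarith [h.2.1]
        rw [if_neg n1, Int.sign_eq_neg_one_of_neg h4]
        ring
      · rw [if_pos ⟨hq, h4, h5⟩, Int.sign_eq_one_of_pos h4]
        ring
    · have n0 : ¬ (inC q ∧ ev q x M ≠ 0) := fun h => h.2 h5
      have n1 : ¬ (inC q ∧ 0 < q.1 ∧ ev q x M < 0) := fun h => by linarith [h.2.2]
      have n2 : ¬ (inC q ∧ 0 < -q.1 ∧ -ev q x M < 0) := fun h => by linarith [h.2.2]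
      rw [if_neg n0, if_neg n1, if_neg n2]
      ring
    · rw [if_pos ⟨hq, h5.ne'⟩]
      have n1 : ¬ (inC q ∧ 0 < q.1 ∧ ev q x M < 0) := fun h => by linarith [h.2.2]
      rw [if_neg n1, Int.sign_eq_one_of_pos h5]
      rcases lt_or_gt_of_ne h2 with h4 | h4
      · rw [if_pos ⟨hq, by linarith, by linarith⟩, Int.sign_eq_neg_one_of_neg h4]
        ring
      · have n2 : ¬ (inC q ∧ 0 < -q.1 ∧ -ev q x M < 0) := fun h => by linarith [h.2.1]
        rw [if_neg n2, Int.sign_eq_one_of_pos h4]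
        ring
  · have n0 : ¬ (inC q ∧ ev q x M ≠ 0) := fun h => hq h.1
    have n1 : ¬ (inC q ∧ 0 < q.1 ∧ ev q x M < 0) := fun h => hq h.1
    have n2 : ¬ (inC q ∧ 0 < -q.1 ∧ -ev q x M < 0) := fun h => hq h.1
    rw [if_neg n0, if_neg n1, if_neg n2]
    ring

theorem fin1 (x M : ℤ) : (Function.support (f1 x M)).Finite := by
  refine (fin_S x M).subset ?_
  intro q hq
  have h1 : f1 x M q ≠ 0 := hq
  unfold f1 at h1
  have h2 : inC q ∧ 0 < q.1 ∧ ev q x M < 0 := by
    by_contra h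
    rw [if_neg h] at h1
    exact h1 rfl
  exact ⟨h2.1, mul_neg_of_pos_of_neg h2.2.1 h2.2.2⟩

theorem fin3' (x M : ℤ) : (Function.support (fun q => f3 x M (-q))).Finite := by
  refine (fin_S x M).subset ?_
  intro q hq
  have h1 : f3 x M (-q) ≠ 0 := hq
  unfold f3 at h1
  have h2 : inC (- -q) ∧ 0 < (-q).1 ∧ ev (-q) x M < 0 := by
    by_contra h
    rw [if_neg h] at h1
    exact h1 rfl
  rw [neg_neg, ev_neg, Prod.fst_neg] at h2
  refine ⟨h2.1, ?_⟩
  have h3 : q.1 < 0 := by linarith [h2.2.1]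
  have h4 : 0 < ev q x M := by linarith [h2.2.2]
  exact mul_neg_of_neg_of_pos h3 h4

theorem fin3 (x M : ℤ) : (Function.support (f3 x M)).Finite := by
  have h := (fin3' x M).preimage ((neg_injective (G := ℤ × ℤ × ℤ)).injOn)
  refine h.subset ?_
  intro q hq
  show f3 x M (- -q) ≠ 0
  rw [neg_neg]
  exact hq

theorem fin_T (x M : ℤ) : (Function.support (T x M)).Finite := by
  refine ((fin1 x M).union (fin3' x M)).subset ?_
  intro q hq
  by_contra h
  rw [Set.mem_union, not_or, Function.mem_support, Function.mem_support, not_not, not_not] at h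
  apply hq
  rw [T_split, h.1, h.2]
  ring

theorem Fm_split (q : ℤ × ℤ × ℤ) : FmC q ↔ (inC q ∨ inC (-q)) := by
  obtain ⟨A, B, C⟩ := q
  unfold FmC inC
  simp only [Prod.fst_neg, Prod.snd_neg]
  constructor
  · rintro ⟨h1, h2, h0⟩
    have hB : B % 2 = 1 := by
      by_contra h
      obtain ⟨k, hk⟩ : ∃ k, B = 2 * k := ⟨B / 2, by omega⟩
      rw [hk] at h1
      have : 2 * (2 * k ^ 2 - 2 * A * C) = 1 := by linear_combination h1
      omega
    rcases (by omega : B % 4 = 1 ∨ B % 4 = 3) with h3 | h3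
    · left
      exact ⟨h1, h2, h0, h3⟩
    · right
      exact ⟨by linear_combination h1, (dvd_neg).2 h2, fun h => h0 ((dvd_neg).1 h), by omega⟩
  · rintro (⟨h1, h2, h0, h3⟩ | ⟨h1, h2, h0, h3⟩)
    · exact ⟨h1, h2, h0⟩
    · exact ⟨by linear_combination h1, (dvd_neg).1 h2, fun h => h0 ((dvd_neg).2 h)⟩

theorem G_eq (x M : ℤ) : G x M = -2 * FC x M := by
  classical
  have h1 : FC x M = ∑ᶠ q, (f1 x M q + f3 x M q) := by
    unfold FC
    apply finsum_congr
    intro q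
    unfold f1 f3
    have hex : ¬ (inC q ∧ inC (-q)) := by
      rintro ⟨⟨_, _, _, h1⟩, ⟨_, _, _, h2⟩⟩
      rw [Prod.snd_neg, Prod.fst_neg] at h2
      omega
    have he : ev q x M = q.1 * x ^ 2 + q.2.1 * x * M + q.2.2 * M ^ 2 := rfl
    rw [← he]
    by_cases hs : 0 < q.1 ∧ ev q x M < 0
    · by_cases h3 : inC q
      · have h4 : ¬ inC (-q) := fun h => hex ⟨h3, h⟩
        rw [if_pos ⟨(Fm_split q).2 (Or.inl h3), hs⟩, if_pos ⟨h3, hs⟩, if_neg (fun h => h4 h.1),
          add_zero]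
      · by_cases h4 : inC (-q)
        · rw [if_pos ⟨(Fm_split q).2 (Or.inr h4), hs⟩, if_neg (fun h => h3 h.1), if_pos ⟨h4, hs⟩,
            zero_add]
        · have h5 : ¬ FmC q := fun h => ((Fm_split q).1 h).elim h3 h4
          rw [if_neg (fun h => h5 h.1), if_neg (fun h => h3 h.1), if_neg (fun h => h4 h.1),
            add_zero]
    · rw [if_neg (fun h => hs h.2), if_neg (fun h => hs h.2), if_neg (fun h => hs h.2), add_zero]
  have h2 : ∑ᶠ q, f3 x M (-q) = ∑ᶠ q, f3 x M q :=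
    finsum_comp_equiv (Equiv.neg (ℤ × ℤ × ℤ)) (f := f3 x M)
  have h3 : G x M = (-2) * (∑ᶠ q, f1 x M q) + (-2) * (∑ᶠ q, f3 x M (-q)) := by
    unfold G
    rw [finsum_congr (T_split x M), finsum_add_distrib, mul_finsum, mul_finsum]
    · exact (fin1 x M).subset (Function.support_mul_subset_right _ _)
    · exact (fin3' x M).subset (Function.support_mul_subset_right _ _)
  rw [h1, h3, h2, finsum_add_distrib (fin1 x M) (fin3 x M)]
  ring

theorem act_fst (a b c d : ℤ) (q : ℤ × ℤ × ℤ) : (act a b c d q).1 = ev q a c := by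
  unfold act ev
  ring

/-- the cocycle relation with the boundary term -/
theorem T_coc {a b c d : ℤ} (h : a * d - b * (6 * c) = 1) (x M : ℤ)
    (q : ℤ × ℤ × ℤ) : T (a * x + b * M) (6 * c * x + d * M) q =
      chi b c * T x M (act a b (6 * c) d q) + T a (6 * c) q -
        chi b c * Zt x M (6 * c) d (act a b (6 * c) d q) := by
  unfold T Zt
  by_cases hq : inC q
  · have hq' := inC_act h hq
    have e1 : ev q (a * x + b * M) (6 * c * x + d * M) = ev (act a b (6 * c) d q) x M :=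
      (ev_act ..).symm
    have e2 : ev (act a b (6 * c) d q) d (-(6 * c)) = q.1 := by
      rw [ev_act]
      have k1 : a * d + b * -(6 * c) = 1 := by linarith
      have k2 : 6 * c * d + d * -(6 * c) = 0 := by ring
      rw [k1, k2]
      exact ev10 q
    have e3 : ev q a (6 * c) ≠ 0 := by
      rw [← act_fst a b (6 * c) d q]
      exact A_ne hq'
    have e4 : (inC q ∧ ev q a (6 * c) ≠ 0) ↔ True := ⟨fun _ => trivial, fun _ => ⟨hq, e3⟩⟩
    simp only [e4, if_true]
    rw [e1, e2, act_fst, wt_act h hq]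
    by_cases h0 : ev (act a b (6 * c) d q) x M = 0
    · rw [if_neg (fun h => h.2 h0), if_neg (fun h => h.2 h0), if_pos ⟨hq', h0⟩]
      linear_combination (wt q * ((ev q a (6 * c)).sign - q.1.sign)) * chi_sq b c
    · rw [if_pos ⟨hq, h0⟩, if_pos ⟨hq', h0⟩, if_neg (fun h => h0 h.2)]
      linear_combination (-(wt q * ((ev (act a b (6 * c) d q) x M).sign - (ev q a (6 * c)).sign)))
        * chi_sq b c
  · have hq' : ¬ inC (act a b (6 * c) d q) := fun h1 => hq ((inC_act_iff h).1 h1)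
    rw [if_neg (fun h => hq h.1), if_neg (fun h => hq' h.1), if_neg (fun h => hq h.1),
      if_neg (fun h => hq' h.1)]
    ring

theorem G_coc {a b c d : ℤ} (h : a * d - b * (6 * c) = 1) {x M : ℤ}
    (hf : (Function.support (Zt x M (6 * c) d)).Finite) :
    G (a * x + b * M) (6 * c * x + d * M) =
      chi b c * G x M + G a (6 * c) - chi b c * ∑ᶠ q, Zt x M (6 * c) d q := by
  unfold G
  have h1 : ∀ q, T (a * x + b * M) (6 * c * x + d * M) q =
      (chi b c * T x M (eqv a b (6 * c) d h q) + T a (6 * c) q) -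
        chi b c * Zt x M (6 * c) d (eqv a b (6 * c) d h q) :=
    fun q => T_coc h x M q
  have hf1 : (Function.support fun q => T x M (eqv a b (6 * c) d h q)).Finite :=
    (fin_T x M).preimage ((eqv a b (6 * c) d h).injective.injOn)
  have hf1' : (Function.support fun q => chi b c * T x M (eqv a b (6 * c) d h q)).Finite :=
    hf1.subset (Function.support_mul_subset_right _ _)
  have hf2 : (Function.support fun q => Zt x M (6 * c) d (eqv a b (6 * c) d h q)).Finite :=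
    hf.preimage ((eqv a b (6 * c) d h).injective.injOn)
  have hf2' : (Function.support fun q =>
      chi b c * Zt x M (6 * c) d (eqv a b (6 * c) d h q)).Finite :=
    hf2.subset (Function.support_mul_subset_right _ _)
  have hf3 := fin_T a (6 * c)
  have hf4 : (Function.support fun q =>
      chi b c * T x M (eqv a b (6 * c) d h q) + T a (6 * c) q).Finite :=
    (hf1'.union hf3).subset (Function.support_add _ _)
  rw [finsum_congr h1, finsum_sub_distrib hf4 hf2', finsum_add_distrib hf1' hf3,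
    ← mul_finsum, ← mul_finsum,
    finsum_comp_equiv (eqv a b (6 * c) d h) (f := T x M),
    finsum_comp_equiv (eqv a b (6 * c) d h) (f := Zt x M (6 * c) d)]

/-- no form vanishes at the point -/
def NV (x M : ℤ) : Prop := ∀ q, inC q → ev q x M ≠ 0

theorem NV_3 {x M : ℤ} (hM : (3 : ℤ) ∣ M) (hx : ¬ (3 : ℤ) ∣ x) : NV x M := by
  intro q hq h0
  obtain ⟨k, rfl⟩ := hM
  obtain ⟨-, -, h2, -⟩ := hq
  unfold ev at h0
  have h3 : (3 : ℤ) ∣ q.1 * (x * x) :=
    ⟨-(q.2.1 * x * k + q.2.2 * 3 * k ^ 2), by linear_combination h0⟩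
  rcases Int.prime_three.dvd_or_dvd h3 with h6 | h6
  · exact h2 h6
  · rcases Int.prime_three.dvd_or_dvd h6 with h6 | h6 <;> exact hx h6

theorem Zt_NV {x M : ℤ} (h : NV x M) (c d : ℤ) (q : ℤ × ℤ × ℤ) : Zt x M c d q = 0 := by
  unfold Zt
  rw [if_neg]
  rintro ⟨h1, h2⟩
  exact h q h1 h2

theorem G_coc' {a b c d : ℤ} (h : a * d - b * (6 * c) = 1) {x M : ℤ} (hNV : NV x M) :
    G (a * x + b * M) (6 * c * x + d * M) = chi b c * G x M + G a (6 * c) := by
  have h0 : Zt x M (6 * c) d = fun _ => 0 := funext (Zt_NV hNV _ _)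
  have h1 := G_coc h (x := x) (M := M) (by rw [h0]; simp)
  rw [h1, h0]
  simp

theorem G_inf : G 1 0 = 0 := by
  unfold G
  have : ∀ q, T 1 0 q = 0 := by
    intro q
    unfold T
    rw [ev10, sub_self, mul_zero]
    split_ifs <;> rfl
  rw [finsum_congr this, finsum_zero]

theorem G_add (x M m : ℤ) : G (x + m * M) M = chi m 0 * G x M := by
  have hdet : (1 : ℤ) * 1 - m * (6 * 0) = 1 := by ring
  have h0 : Zt x M (6 * 0) 1 = fun _ => 0 := by
    funext q
    unfold Zt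
    have e : ev q 1 (-(6 * 0)) = q.1 := by
      rw [mul_zero, neg_zero]; exact ev10 q
    rw [e, sub_self, mul_zero]
    split_ifs <;> rfl
  have h1 := G_coc hdet (x := x) (M := M) (by rw [h0]; simp)
  rw [h0] at h1
  simp only [finsum_zero, mul_zero, sub_zero] at h1
  rw [G_inf, add_zero] at h1
  rw [← h1]
  congr 1 <;> ring

theorem G_neg_neg (x M : ℤ) : G (-x) (-M) = G x M := by
  unfold G
  apply finsum_congr
  intro q
  have h : ev q (-x) (-M) = ev q x M := by unfold ev; ring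
  unfold T
  rw [h]

theorem G_neg (x M : ℤ) : G (-x) M = -G x M := by
  unfold G
  have h1 : ∀ q, T (-x) M q = -T x M (refl q) := by
    intro q
    obtain ⟨A, B, C⟩ := q
    have hr : refl (A, B, C) = (-A, B, -C) := rfl
    rw [hr]
    unfold T
    have hF : inC (-A, B, -C) ↔ inC (A, B, C) := by
      unfold inC
      simp only
      constructor
      · rintro ⟨h1, h2, h0, h3⟩
        exact ⟨by linear_combination h1, (dvd_neg).1 h2, fun h => h0 ((dvd_neg).2 h), h3⟩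
      · rintro ⟨h1, h2, h0, h3⟩
        exact ⟨by linear_combination h1, (dvd_neg).2 h2, fun h => h0 ((dvd_neg).1 h), h3⟩
    have e1 : ev (-A, B, -C) x M = - ev (A, B, C) (-x) M := by
      unfold ev; simp only; ring
    by_cases hq : inC (A, B, C)
    · by_cases h0 : ev (A, B, C) (-x) M = 0
      · rw [if_neg (fun h => h.2 h0), if_neg (fun h => h.2 (by rw [e1, h0, neg_zero])), neg_zero]
      · rw [if_pos ⟨hq, h0⟩, if_pos ⟨hF.2 hq, by rw [e1]; exact neg_ne_zero.2 h0⟩,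
          wt_neg (inC_even hq), e1, Int.sign_neg, Int.sign_neg]
        ring
    · rw [if_neg (fun h => hq h.1), if_neg (fun h => hq (hF.1 h.1)), neg_zero]
  rw [finsum_congr h1, finsum_neg_distrib, finsum_comp_equiv refl (f := T x M)]

/-! ### the properties of `FC` -/

theorem FC_add_mul (x M m : ℤ) : FC (x + m * M) M = chi m 0 * FC x M := by
  have h := G_add x M m
  rw [G_eq, G_eq] at h
  linarith

theorem FC_neg (x M : ℤ) : FC (-x) M = -FC x M := by
  have h := G_neg x M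
  rw [G_eq, G_eq] at h
  linarith

theorem FC_neg_neg (x M : ℤ) : FC (-x) (-M) = FC x M := by
  have h := G_neg_neg x M
  rw [G_eq, G_eq] at h
  linarith

theorem t_FCP : S_FCP := by
  intro x M _
  have h := FC_add_mul x M 1
  have h2 : chi 1 0 = -1 := rfl
  rw [one_mul, h2] at h
  rw [h]
  ring

theorem FC_coc {a b c d : ℤ} (h : a * d - b * (6 * c) = 1) {x M : ℤ} (hNV : NV x M) :
    FC (a * x + b * M) (6 * c * x + d * M) = chi b c * FC x M + FC a (6 * c) := by
  have h1 := G_coc' h hNV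
  rw [G_eq, G_eq, G_eq] at h1
  linarith

theorem bound' {x M : ℤ} (hM : 0 < M) {A B C : ℤ} (h : FmC (A, B, C) ∧ 0 < A ∧
    A * x ^ 2 + B * x * M + C * M ^ 2 < 0) :
    4 * A ≤ M ^ 2 ∧ -M < 2 * A * x + B * M ∧ 2 * A * x + B * M < M := by
  obtain ⟨h1, h2, h3⟩ := h
  have h4 : A * ev (A, B, C) x M < 0 := mul_neg_of_pos_of_neg h2 h3
  obtain ⟨h5, h6⟩ := bound (q := (A, B, C)) h1.1 h4
  simp only at h5 h6
  rw [abs_of_pos h2] at h5
  rw [abs_of_pos hM, abs_lt] at h6
  exact ⟨h5, h6.1, h6.2⟩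

end

end Pool.Agent.N490.P24
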