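import Pool.Agent.N490.P24.ValC
import Pool.Agent.N971.MF.SymF

/-!
# The minus symbol of level `24` on the cusps with denominator divisible by `3`
-/

set_option autoImplicit false

namespace Pool.Agent.N490.P24

open Pool.Agent.N877.P24
open Pool.Agent.N488.P24 (chi per_int)
open Pool.Agent.N971.MF (Symb24)

variable {s : ℚ → ℤ}

theorem chi_pm (b c : ℤ) : chi b c = 1 ∨ chi b c = -1 := by
  unfold chi
  split_ifs
  · exact Or.inl rfl
  · exact Or.inr rfl

theorem s_per (H : Symb24 s) (x : ℚ) (m : ℤ) : s (x + m) = chi m 0 * s x := by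
  have h := per_int (s := s) H.per x m
  simpa using h

theorem s_zero (H : Symb24 s) : s 0 = 0 := by
  have h := H.neg 0
  rw [neg_zero] at h
  omega

theorem s_int (H : Symb24 s) (m : ℤ) : s (m : ℚ) = 0 := by
  have h := s_per H 0 m
  rw [zero_add, s_zero H, mul_zero] at h
  exact h

/-- the affine rule for the points `x / c` -/
theorem s_aff (H : Symb24 s) {A B C D : ℤ} (hdet : A * D - B * (6 * C) = 1) {x c : ℤ} (hc : c ≠ 0)
    (hK : 6 * C * x + D * c ≠ 0) :
    s (((A * x + B * c : ℤ) : ℚ) / ((6 * C * x + D * c : ℤ) : ℚ)) =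
      chi B C * s ((x : ℚ) / c) + s ((B : ℚ) / D) := by
  have hc0 : (c : ℚ) ≠ 0 := by exact_mod_cast hc
  have hK' : (6 * (C : ℚ) * x + D * c) ≠ 0 := by exact_mod_cast hK
  have hden : (6 * C * ((x : ℚ) / c) + D) ≠ 0 := by
    intro h0
    apply hK'
    field_simp at h0
    linarith
  have h1 := H.aff hdet ((x : ℚ) / c) hden
  unfold chi
  rw [← h1]
  congr 1
  push_cast
  field_simp

/-- the symbol is invariant under the Atkin-Lehner involution -/
theorem s_conj (H : Symb24 s) {a b c d : ℤ} (hdet : a * d - b * (6 * c) = 1) :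
    s ((b : ℚ) / d) = s ((c : ℚ) / a) := by
  obtain ⟨ha, hd⟩ := odd_ad hdet
  obtain ⟨x, hx0, hx1⟩ : ∃ x : ℤ, x ≠ 0 ∧ a * x + b ≠ 0 := by
    by_cases h : a * 1 + b = 0
    · exact ⟨2, by norm_num, by omega⟩
    · exact ⟨1, one_ne_zero, h⟩
  have hx2 : 6 * c * x + d ≠ 0 := by
    intro h
    have : d = 2 * (-(3 * c * x)) := by linarith
    omega
  have hx0' : (x : ℚ) ≠ 0 := by exact_mod_cast hx0
  have hx1' : (a : ℚ) * x + b ≠ 0 := by exact_mod_cast hx1
  have hx2' : 6 * (c : ℚ) * x + d ≠ 0 := by exact_mod_cast hx2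
  have h1 := H.aff hdet (x : ℚ) hx2'
  have h2 := H.w6 (((a : ℚ) * x + b) / (6 * c * x + d)) (div_ne_zero hx1' hx2')
  have hdet' : d * a - (-c) * (6 * (-b)) = 1 := by linear_combination hdet
  have hden : 6 * ((-b : ℤ) : ℚ) * (-1 / (6 * (x : ℚ))) + a ≠ 0 := by
    intro h0
    apply hx1'
    push_cast at h0
    field_simp at h0
    linarith
  have h3 := H.aff hdet' (-1 / (6 * (x : ℚ))) hden
  have h4 := H.w6 (x : ℚ) hx0'
  have e1 : ((d : ℚ) * (-1 / (6 * (x : ℚ))) + ((-c : ℤ) : ℚ)) /
      (6 * ((-b : ℤ) : ℚ) * (-1 / (6 * (x : ℚ))) + a) =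
      -1 / (6 * (((a : ℚ) * x + b) / (6 * c * x + d))) := by
    have hden' : 6 * (-(b : ℚ)) * (-1 / (6 * (x : ℚ))) + a ≠ 0 := by
      push_cast at hden
      exact hden
    push_cast
    field_simp
    ring
  have e2 : ((2 : ℤ) ∣ -c + -b) ↔ ((2 : ℤ) ∣ b + c) := by
    constructor <;> intro h <;> omega
  rw [e1, h2, h1, h4] at h3
  simp only [e2] at h3
  have h5 := H.neg ((c : ℚ) / a)
  have e3 : (((-c : ℤ) : ℚ) / a) = -((c : ℚ) / a) := by push_cast; ring
  rw [e3, h5] at h3
  split_ifs at h3 <;> linarith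

/-- the value at the image of infinity -/
theorem s_inf (H : Symb24 s) {a b c d : ℤ} (hdet : a * d - b * (6 * c) = 1) (hc : c ≠ 0) :
    s ((a : ℚ) / ((6 * c : ℤ) : ℚ)) = s ((b : ℚ) / d) := by
  obtain ⟨ha, hd⟩ := odd_ad hdet
  have ha' : (a : ℚ) ≠ 0 := by
    have : a ≠ 0 := by omega
    exact_mod_cast this
  have hc' : (c : ℚ) ≠ 0 := by exact_mod_cast hc
  have h1 := H.w6 (-((c : ℚ) / a)) (neg_ne_zero.2 (div_ne_zero hc' ha'))
  rw [H.neg, neg_neg] at h1
  rw [s_conj H hdet, ← h1]
  congr 1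
  push_cast
  field_simp

/-- the symbol is given by the counting function -/
def E (s : ℚ → ℤ) (x M : ℤ) : Prop := s ((x : ℚ) / M) = FC x M

theorem E.neg_neg {x M : ℤ} (h : E s x M) : E s (-x) (-M) := by
  unfold E at h ⊢
  rw [FC_neg_neg, ← h]
  push_cast
  rw [neg_div_neg_eq]

theorem E.neg (H : Symb24 s) {x M : ℤ} (h : E s x M) : E s (-x) M := by
  unfold E at h ⊢
  rw [FC_neg, ← h]
  push_cast
  rw [neg_div, H.neg]

theorem E.add (H : Symb24 s) {x M : ℤ} (hM : M ≠ 0) (m : ℤ) (h : E s x M) :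
    E s (x + m * M) M := by
  unfold E at h ⊢
  have hMq : (M : ℚ) ≠ 0 := by exact_mod_cast hM
  have e : (((x + m * M : ℤ) : ℚ) / M) = (x : ℚ) / M + m := by
    push_cast
    field_simp
  rw [e, s_per H, FC_add_mul, ← h]

theorem E.of_coc (H : Symb24 s) {A B D c : ℤ} (hc : c ≠ 0) (hdet : A * D - B * (6 * c) = 1)
    {x M : ℤ} (hM : M ≠ 0) (hNV : NV x M)
    (hK : 6 * c * x + D * M ≠ 0) (h1 : E s (A * x + B * M) (6 * c * x + D * M))
    (h2 : E s A (6 * c)) : E s x M := by
  unfold E at h1 h2 ⊢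
  have e1 := FC_coc hdet hNV
  have e2 := s_aff H hdet hM hK
  have e3 := s_inf H hdet hc
  rw [e1, e2] at h1
  rw [e3] at h2
  rcases chi_pm B c with h | h <;> rw [h] at h1 <;> linarith

theorem s13 (H : Symb24 s) : s (1 / 3) = 1 := by
  have h := H.w3 0 (by norm_num)
  rw [s_zero H] at h
  norm_num at h ⊢
  exact h

theorem s16 (H : Symb24 s) : s (1 / 6) = 0 := by
  have h := H.w6 (-1) (by norm_num)
  have h1 := s_int H (-1)
  norm_num at h h1 ⊢
  rw [h1] at h
  exact h

theorem s512 (H : Symb24 s) : s (5 / 12) = 2 := by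
  have h := H.w6 (-2 / 5) (by norm_num)
  have h1 := H.neg (2 / 5)
  have h2 := H.two_fifth
  norm_num at h h1 ⊢
  rw [h1, h2] at h
  rw [h]
  norm_num

theorem E13 (H : Symb24 s) : E s 1 3 := by
  unfold E
  rw [FC13]
  have := s13 H
  norm_num at this ⊢
  exact this

theorem E16 (H : Symb24 s) : E s 1 6 := by
  unfold E
  rw [FC16]
  have := s16 H
  norm_num at this ⊢
  exact this

theorem E512 (H : Symb24 s) : E s 5 12 := by
  unfold E
  rw [FC512]
  have := s512 H
  norm_num at this ⊢
  exact this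

theorem E_all (H : Symb24 s) (n : ℕ) : ∀ x M : ℤ, M.natAbs = n → M ≠ 0 → (3 : ℤ) ∣ M →
    IsCoprime x M → E s x M := by
  induction n using Nat.strong_induction_on with
  | _ n ih =>
    intro x M hn hM0 h3 hcop
    -- reduction to positive denominators
    wlog hMp : 0 < M generalizing x M
    · have h1 := this (-x) (-M) (by rw [Int.natAbs_neg, hn]) (neg_ne_zero.2 hM0)
        ((dvd_neg).2 h3) hcop.neg_neg (by omega)
      have h2 := h1.neg_neg
      rwa [_root_.neg_neg, _root_.neg_neg] at h2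
    have hndx : ∀ y : ℤ, IsCoprime y M → ¬ (3 : ℤ) ∣ y := by
      intro y hy h4
      have h5 := hy.isUnit_of_dvd' h4 h3
      rw [Int.isUnit_iff] at h5
      omega
    -- the general step
    have step : ∀ (y : ℤ), IsCoprime y M → 0 < y → 2 * y ≤ M → E s y M := by
      intro y hy hy0 hy1
      have hy3 := hndx y hy
      have main : ∀ (A B D : ℤ) (c : ℤ), A * D - B * (6 * c) = 1 → 0 < c →
          |6 * c * y + D * M| < M → 6 * c * y + D * M ≠ 0 → E s A (6 * c) → E s y M := by
        intro A B D c hdet hc hlt hK hBD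
        have hcop' : IsCoprime (A * y + B * M) (6 * c * y + D * M) := by
          obtain ⟨u, v, huv⟩ := hy
          refine ⟨u * D - v * (6 * c), -(u * B) + v * A, ?_⟩
          linear_combination (u * y + v * M) * hdet + huv
        refine E.of_coc H hc.ne' hdet hM0 (NV_3 h3 hy3) hK ?_ hBD
        refine ih _ ?_ _ _ rfl hK ?_ hcop'
        · rw [← hn]
          zify
          rw [abs_of_pos hMp]
          exact hlt
        · obtain ⟨k, rfl⟩ := h3
          exact ⟨2 * c * y + D * k, by ring⟩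
      -- the special points
      have special : ∀ (p t : ℤ), 0 < t → IsCoprime p t → t * y = p * M → 0 < p →
          y = p ∧ M = t := by
        intro p t ht hpt h hp
        have h4 : M ∣ t := hy.symm.dvd_of_dvd_mul_right (Dvd.intro_left p h.symm)
        have h5 : t ∣ M := hpt.symm.dvd_of_dvd_mul_left (Dvd.intro y h)
        have h6 : M = t := by
          have h7 := Int.le_of_dvd ht h4
          have h8 := Int.le_of_dvd hMp h5
          omega
        subst h6
        refine ⟨?_, rfl⟩
        have : M * (y - p) = 0 := by linarith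
        rcases mul_eq_zero.1 this with h7 | h7
        · exact absurd h7 hM0
        · linarith
      by_cases s1 : 3 * y = 1 * M
      · obtain ⟨rfl, rfl⟩ := special 1 3 (by norm_num) isCoprime_one_left s1 (by norm_num)
        exact E13 H
      by_cases s2 : 6 * y = 1 * M
      · obtain ⟨rfl, rfl⟩ := special 1 6 (by norm_num) isCoprime_one_left s2 (by norm_num)
        exact E16 H
      by_cases s3 : 12 * y = 5 * M
      · obtain ⟨rfl, rfl⟩ := special 5 12 (by norm_num) ⟨5, -2, by norm_num⟩ s3 (by norm_num)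
        exact E512 H
      by_cases s4 : 2 * y = 1 * M
      · obtain ⟨rfl, rfl⟩ := special 1 2 (by norm_num) isCoprime_one_left s4 (by norm_num)
        norm_num at h3
      have c1 : 3 * y < M ∨ (M < 3 * y ∧ 2 * y < M) := by omega
      rcases c1 with c1 | c1
      · refine main (-1) 0 (-1) 1 (by norm_num) one_pos ?_ ?_ ?_
        · rw [abs_lt]
          constructor <;> omega
        · omega
        · exact (E16 H).neg H
      · refine main (-5) 2 (-5) 2 (by norm_num) two_pos ?_ ?_ ?_
        · rw [abs_lt]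
          constructor <;> omega
        · omega
        · exact (E512 H).neg H
    -- reduce `x` modulo `M`
    obtain ⟨y, m, hxy, hy0, hyM⟩ : ∃ y m : ℤ, x = y + m * M ∧ 0 ≤ y ∧ y < M :=
      ⟨x % M, x / M, by linear_combination -(Int.emod_add_mul_ediv x M), Int.emod_nonneg _ hM0,
        Int.emod_lt_of_pos _ hMp⟩
    have hcy : IsCoprime y M := by
      rw [hxy] at hcop
      exact (IsCoprime.add_mul_right_left_iff).1 hcop
    have hy00 : y ≠ 0 := by
      rintro rfl
      exact hndx 0 hcy (dvd_zero 3)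
    rw [hxy]
    refine E.add H hM0 m ?_
    rcases le_or_gt (2 * y) M with h1 | h1
    · exact step y hcy (by omega) h1
    · have h2 : IsCoprime (M - y) M := by
        have h3 : (M - y) = -y + 1 * M := by ring
        rw [h3]
        exact (IsCoprime.add_mul_right_left_iff).2 hcy.neg_left
      have h3 := step (M - y) h2 (by omega) (by omega)
      have h4 := (h3.neg H).add H hM0 1
      have e : -(M - y) + 1 * M = y := by ring
      rwa [e] at h4

/-- **SYM1**: the symbol on the cusps with denominator divisible by `3` -/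
theorem sym1 (H : Symb24 s) {x M : ℤ} (hM : M ≠ 0) (h3 : (3 : ℤ) ∣ M) (hcop : IsCoprime x M) :
    s ((x : ℚ) / M) = FC x M :=
  E_all H M.natAbs x M rfl hM h3 hcop

end Pool.Agent.N490.P24
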