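import Pool.Agent.N490.P24.SymC

/-!
# The minus symbol of level `24` on the cusps equivalent to `1 / 2`
-/

set_option autoImplicit false

namespace Pool.Agent.N490.P24

open Pool.Agent.N877.P24
open Pool.Agent.N488.P24 (chi ev wt)
open Pool.Agent.N971.MF (Symb24)

/-- the forms vanishing at `1 / 2` -/
def qi (i : ℤ) : ℤ × ℤ × ℤ := (4 * i - 2, 1 - 4 * i, i)

theorem eq_qi {q : ℤ × ℤ × ℤ} (h : inC q) (h0 : ev q 1 2 = 0) : q = qi q.2.2 := by
  obtain ⟨A, B, C⟩ := q
  obtain ⟨h1, h2, h3, h4⟩ := h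
  simp only at h1 h2 h3 h4
  unfold ev at h0
  simp only at h0
  have hA : A = -2 * B - 4 * C := by linarith
  have h5 : (B + 4 * C - 1) * (B + 4 * C + 1) = 0 := by
    rw [hA] at h1
    linear_combination h1
  have hB : B = 1 - 4 * C := by
    rcases mul_eq_zero.1 h5 with h6 | h6
    · linarith
    · omega
  unfold qi
  simp only [Prod.mk.injEq]
  exact ⟨by rw [hA, hB]; ring, hB, trivial⟩

theorem inC_qi (i : ℤ) : inC (qi i) ↔ i % 3 ≠ 2 := by
  unfold inC qi
  simp only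
  constructor
  · rintro ⟨-, -, h, -⟩
    omega
  · intro h
    exact ⟨by ring, ⟨2 * i - 1, by ring⟩, by omega, by omega⟩

theorem ev_qi (i c d : ℤ) : ev (qi i) d (-c) = (2 * d + c) * (i * (2 * d + c) - d) := by
  unfold ev qi
  simp only
  ring

theorem ev_qi0 (i : ℤ) : ev (qi i) 1 2 = 0 := by
  unfold ev qi
  simp only
  ring

/-- the value of the boundary term at `qi i` -/
theorem Zt_qi {M c d : ℤ} (hM : 0 < M) (hMc : M = c + 2 * d) (i : ℤ) :
    Zt 1 2 c d (qi i) = if i % 3 ≠ 2 then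
      wt (qi i) * (Int.sign (4 * i - 2) - Int.sign (i * M - d)) else 0 := by
  unfold Zt
  have e : ev (qi i) d (-c) = M * (i * M - d) := by
    rw [ev_qi, hMc]
    ring
  have e1 : (qi i).1 = 4 * i - 2 := rfl
  by_cases h : i % 3 = 2
  · rw [if_neg (not_not.2 h), if_neg (fun h1 => (inC_qi i).1 h1.1 h)]
  · rw [if_pos h, if_pos ⟨(inC_qi i).2 h, ev_qi0 i⟩, e, e1, Int.sign_mul,
      Int.sign_eq_one_of_pos hM, one_mul]

theorem Zt_supp {M c d : ℤ} (hM : 0 < M) (hMc : M = c + 2 * d) (hd : 0 < d) (hdM : d < 3 * M) :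
    Function.support (Zt 1 2 c d) ⊆ (({qi 1} : Finset (ℤ × ℤ × ℤ)) : Set (ℤ × ℤ × ℤ)) := by
  intro q hq
  have h1 : inC q ∧ ev q 1 2 = 0 := by
    by_contra h
    apply hq
    unfold Zt
    rw [if_neg h]
  have h2 := eq_qi h1.1 h1.2
  generalize q.2.2 = i at h2
  subst h2
  rw [Function.mem_support, Zt_qi hM hMc] at hq
  have h3 : i % 3 ≠ 2 := by
    intro h
    rw [if_neg (not_not.2 h)] at hq
    exact hq rfl
  rw [if_pos h3] at hq
  have h4 : i = 1 := by
    by_contra h5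
    apply hq
    rcases le_or_gt i 0 with h6 | h6
    · have h8 : i * M - d < 0 := by nlinarith
      rw [Int.sign_eq_neg_one_of_neg h8, Int.sign_eq_neg_one_of_neg (by omega)]
      ring
    · have h7 : 3 ≤ i := by omega
      have h8 : 0 < i * M - d := by nlinarith
      rw [Int.sign_eq_one_of_pos h8, Int.sign_eq_one_of_pos (by omega)]
      ring
  rw [h4]
  simp

theorem Zt_sum {M c d : ℤ} (hM : 0 < M) (hMc : M = c + 2 * d) (hd : 0 < d) (hdM : d < 3 * M)
    (hne : d ≠ M) : ∑ᶠ q, Zt 1 2 c d q = if d < M then 0 else 2 := by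
  rw [finsum_eq_sum_of_support_subset _ (Zt_supp hM hMc hd hdM), Finset.sum_singleton,
    Zt_qi hM hMc, if_pos (by norm_num)]
  have h1 : wt (qi 1) = 1 := rfl
  rw [h1, show Int.sign (4 * 1 - 2) = 1 from rfl]
  by_cases h : d < M
  · rw [if_pos h, Int.sign_eq_one_of_pos (by linarith)]
    ring
  · rw [if_neg h, Int.sign_eq_neg_one_of_neg (by omega)]
    ring

variable {s : ℚ → ℤ}

/-- the symbol at the images of `1 / 2` -/
theorem sym2' (H : Symb24 s) {a b c d M : ℤ} (hdet : a * d - b * (6 * c) = 1) (hM : 0 < M)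
    (hMc : M = 6 * c + 2 * d) (hc : c ≠ 0) (hd : 0 < d) (hdM : d < 3 * M) :
    s (((a + 2 * b : ℤ) : ℚ) / M) = FC (a + 2 * b) M + if d < M then chi b c else 0 := by
  have hne : d ≠ M := by
    rintro rfl
    have h1 := (odd_ad hdet).2
    omega
  have hf : (Function.support (Zt 1 2 (6 * c) d)).Finite :=
    (Finset.finite_toSet _).subset (Zt_supp hM hMc hd hdM)
  have h1 := G_coc hdet hf
  rw [Zt_sum hM hMc hd hdM hne] at h1
  have e1 : a * 1 + b * 2 = a + 2 * b := by ring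
  have e2 : 6 * c * 1 + d * 2 = M := by rw [hMc]; ring
  rw [e1, e2, G_eq, G_eq, G_eq, FC12] at h1
  have h2 := s_aff H hdet (x := 1) (c := 2) (by norm_num) (by rw [e2]; exact hM.ne')
  rw [e1, e2] at h2
  have h3 : IsCoprime a (6 * c) := ⟨d, -b, by linear_combination hdet⟩
  have h4 := sym1 H (by omega : 6 * c ≠ 0) (by omega) h3
  rw [s_inf H hdet hc] at h4
  have h5 := H.half
  rw [h2, h4]
  push_cast
  rw [h5]
  split_ifs at h1 ⊢ <;> linarith

/-- **SYM2**: the symbol at `x / M`, `M` even and prime to `3` -/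
theorem sym2 (H : Symb24 s) {x M d b : ℤ} (hM : 2 < M) (h2 : (2 : ℤ) ∣ M)
    (hdet : x * d - b * M = 1) (h3 : (3 : ℤ) ∣ M - 2 * d) (hd : 0 < d) (hdM : d < 3 * M) :
    s ((x : ℚ) / M) = FC x M + if d < M then (if (2 : ℤ) ∣ b + (M - 2 * d) / 6 then 1 else -1)
      else 0 := by
  obtain ⟨c, hc⟩ : ∃ c, M - 2 * d = 6 * c := ⟨(M - 2 * d) / 6, by omega⟩
  have hdet' : (x - 2 * b) * d - b * (6 * c) = 1 := by
    rw [← hc]
    linear_combination hdet
  have hc0 : c ≠ 0 := by
    rintro rfl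
    have h4 : M = 2 * d := by linarith
    have h5 : d * (x - 2 * b) = 1 := by
      rw [h4] at hdet
      linear_combination hdet
    have h6 := Int.eq_one_or_neg_one_of_mul_eq_one h5
    omega
  have h := sym2' H hdet' (by omega) (by linarith) hc0 hd hdM
  have e : x - 2 * b + 2 * b = x := by ring
  have e2 : (M - 2 * d) / 6 = c := by omega
  rw [e] at h
  rw [h, e2]
  rfl

end Pool.Agent.N490.P24
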