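import Pool.Agent.N490.P24.SymD
import Pool.Agent.N975.CHB

/-!
# The boundary terms sum to zero
-/

set_option autoImplicit false

open Finset

namespace Pool.Agent.N490.P24

open Pool.Agent.N877.P24
open Pool.Agent.N971.MF (Symb24)
open Pool.Agent.N969.P15 (Ev chE)
open Pool.Agent.N975.CHB (Chr chrE chE_half t_CHBE sum_unZ)

/-- the boundary term in terms of the inverse modulo `2 M` -/
def bd (M e : ℕ) : ℤ :=
  if e < M then (if (e + M) % 3 = 0 then -1 else 0) else (if e % 3 = 0 then 1 else 0)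

theorem ex3 {M z : ℤ} (h3 : ¬ (3 : ℤ) ∣ M) :
    ∃ j : ℤ, (j = 0 ∨ j = 1 ∨ j = 2) ∧ (3 : ℤ) ∣ M - 2 * (z + j * M) := by
  obtain ⟨m, hm⟩ : ∃ m, m = M / 3 := ⟨_, rfl⟩
  obtain ⟨y, hy⟩ : ∃ y, y = z / 3 := ⟨_, rfl⟩
  rcases (by omega : M = 3 * m + 1 ∨ M = 3 * m + 2) with h | h <;>
    rcases (by omega : z = 3 * y ∨ z = 3 * y + 1 ∨ z = 3 * y + 2) with h' | h' | h' <;>
    rw [h, h'] <;>
    first
      | exact ⟨0, by norm_num, by omega⟩
      | exact ⟨1, by norm_num, by omega⟩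
      | exact ⟨2, by norm_num, by omega⟩

/-- the symbol at `u / M`, `M = 4 mod 8`, in terms of the inverse of `u` modulo `2 M` -/
theorem sym_bd {s : ℚ → ℤ} (H : Symb24 s) {M u e : ℕ} (hM : M % 8 = 4) (h3 : ¬ 3 ∣ M)
    (he : e < 2 * M) (hu : u * e % (2 * M) = 1) :
    s ((u : ℚ) / M) = FC u M + bd M e := by
  have hM0 : 0 < M := by omega
  -- the numbers
  obtain ⟨k, hk⟩ : ∃ k : ℕ, u * e = 2 * M * k + 1 := by
    refine ⟨u * e / (2 * M), ?_⟩
    have := Nat.div_add_mod (u * e) (2 * M)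
    omega
  have hk' : (u : ℤ) * e = 2 * M * k + 1 := by exact_mod_cast hk
  have ho : u % 2 = 1 ∧ e % 2 = 1 := by
    have h1 : (u * e) % 2 = 1 := by
      rw [hk]
      have : 2 * M * k = 2 * (M * k) := by ring
      omega
    rw [Nat.mul_mod] at h1
    rcases Nat.mod_two_eq_zero_or_one u with h4 | h4 <;>
      rcases Nat.mod_two_eq_zero_or_one e with h5 | h5 <;> rw [h4, h5] at h1 <;> omega
  have heM : e ≠ M := by omega
  -- `d0` is the residue of `e` modulo `M`, `j` the shift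
  have main : ∀ (d0 w : ℤ), 0 < d0 → d0 < M → (w = 0 ∨ w = 1) → d0 = e - w * M →
      ∀ j : ℤ, (j = 0 ∨ j = 1 ∨ j = 2) → (3 : ℤ) ∣ M - 2 * (d0 + j * M) →
      s ((u : ℚ) / M) = FC u M + if j = 0 then (if w = 0 then -1 else 1) else 0 := by
    intro d0 w h0 h1 hw hd0 j hj hj3
    have hdet : (u : ℤ) * (d0 + j * M) - (2 * k - w * u + j * u) * M = 1 := by
      rw [hd0]
      linear_combination hk'
    have h4 := sym2 H (x := u) (M := M) (by omega) (by omega) hdet hj3
      (by rcases hj with rfl | rfl | rfl <;> omega) (by rcases hj with rfl | rfl | rfl <;> omega)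
    push_cast at h4 ⊢
    rw [h4]
    congr 1
    have hdo : d0 % 2 = 1 := by rcases hw with rfl | rfl <;> omega
    clear h4 hdet
    rcases hj with rfl | rfl | rfl
    · rw [if_pos (by omega), if_pos rfl]
      have h5 : ((M : ℤ) - 2 * (d0 + 0 * M)) / 6 % 2 = 1 := by
        obtain ⟨t, ht⟩ := hj3
        obtain ⟨m, hm⟩ : ∃ m : ℤ, (M : ℤ) = 8 * m + 4 := ⟨(M : ℤ) / 8, by omega⟩
        have h6 : ((M : ℤ) - 2 * (d0 + 0 * M)) = 6 * (t / 2) := by omega
        rw [h6, Int.mul_ediv_cancel_left _ (by norm_num)]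
        omega
      rcases hw with rfl | rfl
      · rw [if_pos rfl, if_neg (by omega)]
      · rw [if_neg one_ne_zero, if_pos (by omega)]
    · rw [if_neg (by omega), if_neg (by norm_num)]
    · rw [if_neg (by omega), if_neg (by norm_num)]
  unfold bd
  rcases lt_or_gt_of_ne heM with h | h
  · have h5 := ex3 (M := M) (z := (e : ℤ)) (by omega)
    obtain ⟨j, hj, hj3⟩ := h5
    have h6 := main e 0 (by omega) (by omega) (Or.inl rfl) (by ring) j hj hj3
    rw [h6, if_pos h, if_pos rfl]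
    congr 1
    rcases hj with rfl | rfl | rfl
    · rw [if_pos rfl, if_pos (by omega)]
    · rw [if_neg (by norm_num), if_neg (by omega)]
    · rw [if_neg (by norm_num), if_neg (by omega)]
  · have h5 := ex3 (M := M) (z := (e : ℤ) - 1 * M) (by omega)
    obtain ⟨j, hj, hj3⟩ := h5
    have h6 := main (e - 1 * M) 1 (by omega) (by omega) (Or.inr rfl) (by ring) j hj hj3
    rw [h6, if_neg (not_lt.2 h.le), if_neg one_ne_zero]
    congr 1
    rcases hj with rfl | rfl | rfl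
    · rw [if_pos rfl, if_pos (by omega)]
    · rw [if_neg (by norm_num), if_neg (by omega)]
    · rw [if_neg (by norm_num), if_neg (by omega)]

/-- the sum over the residues `2` modulo `3` in the half period -/
theorem sum_third {N : ℕ} (hE : Ev N) (h3 : N % 3 = 2) :
    ∑ e ∈ (range (N / 2)).filter (fun e => e % 3 = 2), chE N e = 0 := by
  have H := chrE hE h3
  have hN := Pool.Agent.N975.ChE.ev_mod hE
  have h0 := t_CHBE N hE h3
  have h1 : ∑ e ∈ (range (N / 2)).filter (fun e => e % 3 = 2), chE N e =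
      -∑ j ∈ (range N).filter (fun j => N < 6 * j ∧ 3 * j < N), chE N j := by
    rw [← Finset.sum_neg_distrib]
    symm
    refine Finset.sum_bij (fun j _ => N - 3 * j) ?_ ?_ ?_ ?_
    · intro j hj
      rw [mem_filter, mem_range] at hj ⊢
      omega
    · intro i hi j hj h
      rw [mem_filter, mem_range] at hi hj
      omega
    · intro e he
      rw [mem_filter, mem_range] at he
      refine ⟨(N - e) / 3, ?_, by omega⟩
      rw [mem_filter, mem_range]
      omega
    · intro j hj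
      rw [mem_filter, mem_range] at hj
      have h5 : chE N ((N - 3 * j : ℕ) : ℤ) = chE N (3 * -(j : ℤ)) := by
        refine H.per _ _ ⟨1, ?_⟩
        have : 3 * j ≤ N := by omega
        push_cast [this]
        ring
      rw [h5, H.mul, H.odd, H.three, one_mul]
  rw [h1, h0, neg_zero]

/-- the boundary terms sum to zero -/
theorem sum_bd {n : ℕ} (hE : Ev (4 * n)) (h3 : n % 3 = 2) :
    ∑ e ∈ range (4 * n), chE (4 * n) e * bd (2 * n) e = 0 := by
  have h4 := sum_third hE (by omega)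
  have e1 : 4 * n / 2 = 2 * n := by omega
  rw [e1] at h4
  have e2 : 4 * n = 2 * n + 2 * n := by ring
  conv_lhs => rw [e2, Finset.sum_range_add]
  rw [← e2, ← Finset.sum_add_distrib]
  have e3 : ∀ e ∈ range (2 * n), chE (4 * n) (e : ℤ) * bd (2 * n) e +
      chE (4 * n) ((2 * n + e : ℕ) : ℤ) * bd (2 * n) (2 * n + e) =
      -2 * (if e % 3 = 2 then chE (4 * n) e else 0) := by
    intro e he
    rw [mem_range] at he
    have e4 : chE (4 * n) ((2 * n + e : ℕ) : ℤ) = -chE (4 * n) e := by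
      rw [← chE_half hE]
      congr 1
      push_cast
      omega
    rw [e4]
    unfold bd
    rw [if_pos he, if_neg (by omega : ¬ 2 * n + e < 2 * n)]
    by_cases h5 : e % 3 = 2
    · rw [if_pos (by omega), if_pos (by omega), if_pos h5]
      ring
    · rw [if_neg (by omega), if_neg (by omega), if_neg h5]
      ring
  rw [Finset.sum_congr rfl e3, ← Finset.mul_sum, ← Finset.sum_filter, h4, mul_zero]

theorem unn (M : ℕ) : un M = Pool.Agent.N969.P15.un M := rfl

theorem inv_mod {N : ℕ} [NeZero N] (u : (ZMod N)ˣ) (hN : 1 < N) :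
    (u : ZMod N).val * ((u⁻¹ : (ZMod N)ˣ) : ZMod N).val % N = 1 := by
  have h6 : (u : ZMod N) * ((u⁻¹ : (ZMod N)ˣ) : ZMod N) = 1 := Units.mul_inv _
  have h7 := congrArg ZMod.val h6
  rw [ZMod.val_mul] at h7
  rw [h7]
  exact ZMod.val_one'' (by omega)

theorem sum_inv {n : ℕ} [NeZero (4 * n)] (hE : Ev (4 * n)) (h3 : n % 3 = 2) :
    ∑ u : (ZMod (4 * n))ˣ, chE (4 * n) (((u : ZMod (4 * n)).val : ℕ) : ℤ) *
      bd (2 * n) (((u⁻¹ : (ZMod (4 * n))ˣ) : ZMod (4 * n)).val) = 0 := by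
  have hX := chrE hE (by omega)
  have e2 : ∑ u : (ZMod (4 * n))ˣ, chE (4 * n) (((u : ZMod (4 * n)).val : ℕ) : ℤ) *
        bd (2 * n) (((u⁻¹ : (ZMod (4 * n))ˣ) : ZMod (4 * n)).val) =
      ∑ v : (ZMod (4 * n))ˣ, chE (4 * n) (((v : ZMod (4 * n)).val : ℕ) : ℤ) *
        bd (2 * n) ((v : ZMod (4 * n)).val) := by
    refine Finset.sum_bij' (fun u _ => u⁻¹) (fun v _ => v⁻¹) (fun _ _ => mem_univ _)
      (fun _ _ => mem_univ _) ?_ ?_ ?_
    · intro u _
      simp
    · intro v _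
      simp
    · intro u _
      congr 1
      -- the character at the inverse
      set v : (ZMod (4 * n))ˣ := u⁻¹ with hv
      have h1 : chE (4 * n) ((((u : ZMod (4 * n)).val : ℕ) : ℤ) *
          (((v : ZMod (4 * n)).val : ℕ) : ℤ)) = chE (4 * n) 1 := by
        refine hX.per _ _ ?_
        rw [← ZMod.intCast_zmod_eq_zero_iff_dvd]
        have h7 : (u : ZMod (4 * n)) * (v : ZMod (4 * n)) = 1 := by
          rw [hv]; exact Units.mul_inv _
        simp only [Int.cast_sub, Int.cast_mul, Int.cast_natCast, Int.cast_one,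
          ZMod.natCast_zmod_val]
        linear_combination h7
      rw [hX.mul, hX.one] at h1
      have h2 := hX.pm _ (ZMod.val_coe_unit_coprime u)
      have h3 := hX.pm _ (ZMod.val_coe_unit_coprime v)
      rcases h2 with h2 | h2 <;> rcases h3 with h3 | h3 <;> rw [h2, h3] at h1 ⊢ <;> omega
  rw [e2, ← sum_unZ (fun j => chE (4 * n) j * bd (2 * n) j), ← sum_bd hE h3]
  refine Finset.sum_subset (Finset.filter_subset _ _) fun j hj hj2 => ?_
  have : ¬ Nat.Coprime j (4 * n) := fun h => hj2 (Finset.mem_filter.2 ⟨hj, h⟩)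
  rw [hX.zero j this, zero_mul]

/-- the character sum of the symbol, `n = 2 mod 12` -/
theorem sumE2 {s : ℚ → ℤ} (H : Symb24 s) {n : ℕ} (hE : Ev (4 * n)) (h4 : n % 4 = 2)
    (h3 : n % 3 = 2) :
    ∑ u ∈ un (4 * n), chE (4 * n) u * s ((u : ℚ) / (2 * n)) =
      ∑ u ∈ un (4 * n), chE (4 * n) u * FC u (2 * n) := by
  have : NeZero (4 * n) := ⟨by omega⟩
  -- the values of the symbol
  have hval : ∀ u : (ZMod (4 * n))ˣ, s ((((u : ZMod (4 * n)).val : ℕ) : ℚ) / (2 * n)) =
      FC (((u : ZMod (4 * n)).val : ℕ) : ℤ) (2 * n) +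
        bd (2 * n) (((u⁻¹ : (ZMod (4 * n))ˣ) : ZMod (4 * n)).val) := by
    intro u
    have h5 := inv_mod u (by omega)
    have e : 2 * (2 * n) = 4 * n := by omega
    have h6 := sym_bd H (M := 2 * n) (u := (u : ZMod (4 * n)).val)
      (e := ((u⁻¹ : (ZMod (4 * n))ˣ) : ZMod (4 * n)).val) (by omega) (by omega)
      (by rw [e]; exact ZMod.val_lt _) (by rw [e]; exact h5)
    have e7 : ((2 * n : ℕ) : ℤ) = 2 * (n : ℤ) := by push_cast; rfl
    have e8 : ((2 * n : ℕ) : ℚ) = 2 * (n : ℚ) := by push_cast; rfl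
    rw [e7, e8] at h6
    exact h6
  rw [unn, sum_unZ, sum_unZ]
  have e1 : ∑ u : (ZMod (4 * n))ˣ, chE (4 * n) (((u : ZMod (4 * n)).val : ℕ) : ℤ) *
      s ((((u : ZMod (4 * n)).val : ℕ) : ℚ) / (2 * n)) =
      ∑ u : (ZMod (4 * n))ˣ, chE (4 * n) (((u : ZMod (4 * n)).val : ℕ) : ℤ) *
        FC (((u : ZMod (4 * n)).val : ℕ) : ℤ) (2 * n) +
      ∑ u : (ZMod (4 * n))ˣ, chE (4 * n) (((u : ZMod (4 * n)).val : ℕ) : ℤ) *
        bd (2 * n) (((u⁻¹ : (ZMod (4 * n))ˣ) : ZMod (4 * n)).val) := by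
    rw [← Finset.sum_add_distrib]
    refine Finset.sum_congr rfl fun u _ => ?_
    rw [hval]
    ring
  rw [e1, sum_inv hE h3, add_zero]

/-- the character sum of the symbol, `6 ∣ n` -/
theorem sumE6 {s : ℚ → ℤ} (H : Symb24 s) {n : ℕ} (h0 : 0 < n) (h3 : 3 ∣ n) :
    ∑ u ∈ un (4 * n), chE (4 * n) u * s ((u : ℚ) / (2 * n)) =
      ∑ u ∈ un (4 * n), chE (4 * n) u * FC u (2 * n) := by
  refine Finset.sum_congr rfl fun u hu => ?_
  have hc : Nat.Coprime u (4 * n) := (Finset.mem_filter.1 hu).2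
  have hc2 : Nat.Coprime u (2 * n) := Nat.Coprime.coprime_dvd_right ⟨2, by ring⟩ hc
  have h := sym1 H (x := u) (M := ((2 * n : ℕ) : ℤ)) (by omega)
    (by obtain ⟨k, rfl⟩ := h3; exact ⟨2 * k, by push_cast; ring⟩)
    (Nat.isCoprime_iff_coprime.2 hc2)
  congr 1
  push_cast at h
  exact h

/-- the character sum of the symbol, `n` odd, `3 ∣ n` -/
theorem sumA3 {s : ℚ → ℤ} (H : Symb24 s) {n : ℕ} (h2 : n % 2 = 1) (h3 : 3 ∣ n) (χ : ℤ → ℤ) :
    ∑ u ∈ un n, χ u * s (2 * ((u : ℚ) / n)) = ∑ u ∈ un n, χ u * FC (2 * u) n := by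
  refine Finset.sum_congr rfl fun u hu => ?_
  have hc : Nat.Coprime u n := (Finset.mem_filter.1 hu).2
  have hc2 : Nat.Coprime (2 * u) n :=
    Nat.Coprime.mul_left (Nat.coprime_two_left.2 (Nat.odd_iff.2 h2)) hc
  have h := sym1 H (x := ((2 * u : ℕ) : ℤ)) (M := (n : ℤ)) (by omega)
    (by exact_mod_cast h3) (Nat.isCoprime_iff_coprime.2 hc2)
  congr 1
  push_cast at h
  rw [← h]
  congr 1
  ring

end Pool.Agent.N490.P24
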