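import Pool.Agent.N490.P24.SymE
import Pool.Agent.N877.P24.Defs3

/-!
# P24x/SYM: the statements of `N877/P24/Defs3.lean`
-/

set_option autoImplicit false

open Finset

namespace Pool.Agent.N490.P24

open Pool.Agent.N877.P24
open Pool.Agent.N971.MF (Symb24)
open Pool.Agent.N969.P15 (Ev chE)
open Pool.Agent.N975.CHB (Chr chrE chE_half t_CHBE sum_unZ)

/-- **SYM1** -/
theorem t_SYM1 : S_SYM1 := fun _ H _ _ hM hc h3 => sym1 H hM.ne' h3 hc

/-- **SYM2** -/
theorem t_SYM2 : S_SYM2 := by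
  intro s H x M j hM h4 h3 _ hj hjM hdv
  obtain ⟨q, hq⟩ := hdv
  obtain ⟨m, hm⟩ := h4
  have hq' : (3 * j * x - 1) / M = q := by
    rw [hq]; exact Int.mul_ediv_cancel_left _ hM.ne'
  have hxj : x % 2 = 1 ∧ j % 2 = 1 := by
    have h1 : (j * x) % 2 = 1 := by
      have : 3 * (j * x) = 4 * (m * q) + 1 := by rw [hm] at hq; linear_combination hq
      omega
    rw [Int.mul_emod] at h1
    rcases Int.emod_two_eq_zero_or_one j with h4 | h4 <;>
      rcases Int.emod_two_eq_zero_or_one x with h5 | h5 <;> rw [h4, h5] at h1 <;> omega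
  rw [hq']
  rcases lt_or_ge (3 * j) M with h | h
  · have hdet : x * (3 * j + 2 * M) - (q + 2 * x) * M = 1 := by linear_combination hq
    have h5 := sym2 H (by omega) (by omega) hdet (by omega) (by omega) (by omega)
    rw [h5, if_neg (by omega : ¬ 3 * j + 2 * M < M),
      if_neg (by omega : ¬ (M < 3 * j ∧ 3 * j < 2 * M))]
  · have hdet : x * (3 * j - M) - (q - x) * M = 1 := by linear_combination hq
    have h5 := sym2 H (by omega) (by omega) hdet (by omega) (by omega) (by omega)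
    rw [h5]
    congr 1
    by_cases h6 : 3 * j < 2 * M
    · rw [if_pos (by omega : 3 * j - M < M),
        if_pos (by omega : (M < 3 * j ∧ 3 * j < 2 * M))]
      have e : (M - 2 * (3 * j - M)) / 6 = 2 * m - j := by omega
      rw [e]
      by_cases h7 : (2 : ℤ) ∣ q
      · rw [if_pos (by omega), if_pos h7]
      · rw [if_neg (by omega), if_neg h7]
    · rw [if_neg (by omega : ¬ 3 * j - M < M),
        if_neg (by omega : ¬ (M < 3 * j ∧ 3 * j < 2 * M))]

/-- the boundary term in terms of the inverse -/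
theorem bd_j {n u e : ℕ} {j : ℤ} (hn : n % 4 = 2) (h3 : n % 3 = 2) (he : e < 4 * n)
    (hu : u * e % (4 * n) = 1) (hj : 0 ≤ j) (hj2 : j < 2 * n) (hd : (2 * n : ℤ) ∣ 3 * j * u - 1) :
    (if 2 * (n : ℤ) < 3 * j ∧ 3 * j < 2 * (2 * n) then
      (if (2 : ℤ) ∣ (3 * j * u - 1) / (2 * n) then (1 : ℤ) else -1) else 0) = bd (2 * n) e := by
  obtain ⟨q, hq⟩ := hd
  have hn0 : (2 * n : ℤ) ≠ 0 := by omega
  have hq' : (3 * j * u - 1) / (2 * n) = q := by
    rw [hq]; exact Int.mul_ediv_cancel_left _ hn0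
  obtain ⟨k, hk⟩ : ∃ k : ℕ, u * e = 4 * n * k + 1 := by
    refine ⟨u * e / (4 * n), ?_⟩
    have := Nat.div_add_mod (u * e) (4 * n)
    omega
  have hk' : (u : ℤ) * e = 4 * n * k + 1 := by exact_mod_cast hk
  have ho : (u : ℤ) % 2 = 1 ∧ (e : ℤ) % 2 = 1 := by
    have h1 : ((u : ℤ) * e) % 2 = 1 := by
      have : (u : ℤ) * e = 2 * (2 * n * k) + 1 := by linear_combination hk'
      omega
    rw [Int.mul_emod] at h1
    rcases Int.emod_two_eq_zero_or_one (u : ℤ) with h4 | h4 <;>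
      rcases Int.emod_two_eq_zero_or_one (e : ℤ) with h5 | h5 <;> rw [h4, h5] at h1 <;> omega
  -- the difference `3 j - e` is a multiple of `2 n`
  obtain ⟨w, hw⟩ : ∃ w : ℤ, 3 * j - e = 2 * n * w := by
    refine ⟨q * e - 3 * j * 2 * k, ?_⟩
    linear_combination (-(3 * j)) * hk' + (e : ℤ) * hq
  have hwq : q % 2 = w % 2 := by
    have h1 : (2 * n : ℤ) * (w * u - q + 2 * k) = 0 := by
      linear_combination (-(u : ℤ)) * hw + hq + (-1 : ℤ) * hk'
    have h2 : w * u - q + 2 * k = 0 := (mul_eq_zero.1 h1).resolve_left hn0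
    have h3 : q = w * u + 2 * k := by linarith
    rw [h3, Int.add_mul_emod_self_left, Int.mul_emod, ho.1]
    omega
  have hw2 : -2 < w ∧ w < 3 := by
    have hn1 : (0 : ℤ) < 2 * n := by omega
    constructor
    · by_contra h
      have h4 : w ≤ -2 := by omega
      have : 2 * (n : ℤ) * w ≤ 2 * n * (-2) := mul_le_mul_of_nonneg_left h4 hn1.le
      omega
    · by_contra h
      have h4 : 3 ≤ w := by omega
      have : 2 * (n : ℤ) * 3 ≤ 2 * n * w := mul_le_mul_of_nonneg_left h4 hn1.le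
      omega
  have hne : e ≠ 2 * n := by omega
  rw [hq']
  unfold bd
  rcases (by omega : w = -1 ∨ w = 0 ∨ w = 1 ∨ w = 2) with rfl | rfl | rfl | rfl
  · -- `3 j = e - 2 n`
    rw [if_neg (by omega : ¬ (2 * (n : ℤ) < 3 * j ∧ 3 * j < 2 * (2 * n))),
      if_neg (by omega : ¬ e < 2 * n), if_neg (by omega : ¬ e % 3 = 0)]
  · by_cases h : e < 2 * n
    · rw [if_neg (by omega : ¬ (2 * (n : ℤ) < 3 * j ∧ 3 * j < 2 * (2 * n))), if_pos h,
        if_neg (by omega : ¬ (e + 2 * n) % 3 = 0)]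
    · rw [if_pos (by omega : (2 * (n : ℤ) < 3 * j ∧ 3 * j < 2 * (2 * n))), if_neg h,
        if_pos (by omega : e % 3 = 0), if_pos (by omega)]
  · by_cases h : e < 2 * n
    · rw [if_pos (by omega : (2 * (n : ℤ) < 3 * j ∧ 3 * j < 2 * (2 * n))), if_pos h,
        if_pos (by omega : (e + 2 * n) % 3 = 0), if_neg (by omega)]
    · rw [if_neg (by omega : ¬ (2 * (n : ℤ) < 3 * j ∧ 3 * j < 2 * (2 * n))), if_neg h,
        if_neg (by omega : ¬ e % 3 = 0)]
  · rw [if_neg (by omega : ¬ (2 * (n : ℤ) < 3 * j ∧ 3 * j < 2 * (2 * n))),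
      if_pos (by omega : e < 2 * n), if_neg (by omega : ¬ (e + 2 * n) % 3 = 0)]

theorem evE2 {n : ℕ} (h : ClE2 n) : Ev (4 * n) := ⟨n, rfl, h.1, Or.inr (by have := h.2; omega)⟩

/-- **BD** -/
theorem t_BD : S_BD := by
  intro n hn j hj
  have hE := evE2 hn
  have h12 := hn.2
  set N := 4 * n with hN
  have : NeZero N := ⟨by omega⟩
  have hX := chrE hE (by omega)
  rw [unn, sum_unZ (fun u => chE N u * (if 2 * (n : ℤ) < 3 * j u ∧ 3 * j u < 2 * (2 * n) then
    (if (2 : ℤ) ∣ (3 * j u * u - 1) / (2 * n) then 1 else -1) else 0))]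
  refine Eq.trans (Finset.sum_congr rfl fun u _ => ?_) (sum_inv hE (by omega))
  congr 1
  have hu : (u : ZMod N).val ∈ un (4 * n) := Finset.mem_filter.2
    ⟨Finset.mem_range.2 (ZMod.val_lt _), ZMod.val_coe_unit_coprime u⟩
  obtain ⟨j1, j2, j3⟩ := hj _ hu
  exact bd_j (by omega) (by omega) (ZMod.val_lt _) (inv_mod u (by omega)) j1 j2 j3

/-- **SUMC** -/
theorem t_SUMC : S_SUMC := by
  intro s H
  refine ⟨fun n hn => ?_, fun n hn => ?_⟩
  · have h24 := hn.2
    exact sumA3 H (by omega) (by omega) (fun u => jacobiSym u n)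
  · have e : ∀ u : ℕ, s (2 * ((u : ℚ) / (4 * n : ℕ))) = s ((u : ℚ) / (2 * n)) := by
      intro u
      congr 1
      push_cast
      ring
    have e2 : ∑ u ∈ un (4 * n), chE (4 * n) u * s (2 * ((u : ℚ) / (4 * n : ℕ))) =
        ∑ u ∈ un (4 * n), chE (4 * n) u * s ((u : ℚ) / (2 * n)) :=
      Finset.sum_congr rfl fun u _ => by rw [e]
    rw [e2]
    rcases hn with hn | hn
    · have h12 := hn.2
      exact sumE2 H (evE2 hn) (by omega) (by omega)
    · have h12 := hn.2
      exact sumE6 H (by omega) (by omega)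

end Pool.Agent.N490.P24
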