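import Pool.Agent.N490.P24.CoreC

/-!
# Small values of `FC`
-/

set_option autoImplicit false

namespace Pool.Agent.N490.P24

open Pool.Agent.N877.P24

theorem sup_lem {x M : ℤ} {P : (ℤ × ℤ × ℤ) → Prop}
    (h : ∀ A B C : ℤ, (FmC (A, B, C) ∧ 0 < A ∧ A * x ^ 2 + B * x * M + C * M ^ 2 < 0) →
      P (A, B, C)) :
    ∀ q, (open Classical in (if FmC q ∧ 0 < q.1 ∧ q.1 * x ^ 2 + q.2.1 * x * M + q.2.2 * M ^ 2 < 0
      then cC q else 0)) ≠ 0 → P q := by
  classical
  rintro ⟨A, B, C⟩ hq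
  apply h
  by_contra h1
  exact hq (if_neg h1)

theorem FC12 : FC 1 2 = 0 := by
  classical
  unfold FC
  refine finsum_eq_zero_of_forall_eq_zero ?_
  rintro ⟨A, B, C⟩
  refine if_neg ?_
  intro h
  obtain ⟨h1, h2, h3⟩ := bound' (by norm_num) h
  obtain ⟨⟨h4, ⟨k, h5⟩, h6⟩, h7, h8⟩ := h
  simp only at h4 h5 h6
  omega

theorem FC13 : FC 1 3 = 1 := by
  classical
  have hs : Function.support (fun q : ℤ × ℤ × ℤ =>
      if FmC q ∧ 0 < q.1 ∧ q.1 * 1 ^ 2 + q.2.1 * 1 * 3 + q.2.2 * 3 ^ 2 < 0 then cC q else 0) ⊆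
      (({(2, -1, 0)} : Finset (ℤ × ℤ × ℤ)) : Set (ℤ × ℤ × ℤ)) := by
    intro q hq
    refine sup_lem (x := 1) (M := 3)
      (P := fun q => q ∈ (({(2, -1, 0)} : Finset (ℤ × ℤ × ℤ)) : Set (ℤ × ℤ × ℤ))) ?_ q hq
    intro A B C h
    obtain ⟨h1, h2, h3⟩ := bound' (by norm_num) h
    obtain ⟨⟨h4, ⟨k, h5⟩, h6⟩, h7, h8⟩ := h
    simp only at h4 h5 h6
    subst h5
    have hk : k = 1 := by omega
    subst hk
    have hB : B = -1 ∨ B = -2 := by omega
    rcases hB with rfl | rfl
    · have hC : C = 0 := by omega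
      subst hC
      simp
    · omega
  unfold FC
  rw [finsum_eq_sum_of_support_subset _ hs, Finset.sum_singleton, if_pos]
  · rfl
  · refine ⟨⟨by norm_num, by norm_num, by norm_num⟩, by norm_num, by norm_num⟩

theorem FC16 : FC 1 6 = 0 := by
  classical
  have hs : Function.support (fun q : ℤ × ℤ × ℤ =>
      if FmC q ∧ 0 < q.1 ∧ q.1 * 1 ^ 2 + q.2.1 * 1 * 6 + q.2.2 * 6 ^ 2 < 0 then cC q else 0) ⊆
      (({(2, -1, 0), (4, -1, 0)} : Finset (ℤ × ℤ × ℤ)) : Set (ℤ × ℤ × ℤ)) := by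
    intro q hq
    refine sup_lem (x := 1) (M := 6)
      (P := fun q => q ∈ (({(2, -1, 0), (4, -1, 0)} : Finset (ℤ × ℤ × ℤ)) :
        Set (ℤ × ℤ × ℤ))) ?_ q hq
    intro A B C h
    obtain ⟨h1, h2, h3⟩ := bound' (by norm_num) h
    obtain ⟨⟨h4, ⟨k, h5⟩, h6⟩, h7, h8⟩ := h
    simp only at h4 h5 h6
    subst h5
    have hk : k = 1 ∨ k = 2 ∨ k = 4 := by omega
    rcases hk with rfl | rfl | rfl
    · have hB : B = -1 ∨ B = 0 := by omega
      rcases hB with rfl | rfl
      · have hC : C = 0 := by omega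
        subst hC
        simp
      · omega
    · have hB : B = -1 ∨ B = -2 := by omega
      rcases hB with rfl | rfl
      · have hC : C = 0 := by omega
        subst hC
        simp
      · omega
    · have hB : B = -3 ∨ B = -2 := by omega
      rcases hB with rfl | rfl
      · omega
      · omega
  unfold FC
  rw [finsum_eq_sum_of_support_subset _ hs, Finset.sum_insert (by decide), Finset.sum_singleton,
    if_pos, if_pos]
  · rfl
  · refine ⟨⟨by norm_num, by norm_num, by norm_num⟩, by norm_num, by norm_num⟩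
  · refine ⟨⟨by norm_num, by norm_num, by norm_num⟩, by norm_num, by norm_num⟩

theorem FC512 : FC 5 12 = 2 := by
  classical
  have hs : Function.support (fun q : ℤ × ℤ × ℤ =>
      if FmC q ∧ 0 < q.1 ∧ q.1 * 5 ^ 2 + q.2.1 * 5 * 12 + q.2.2 * 12 ^ 2 < 0 then cC q else 0) ⊆
      (({(2, -1, 0), (10, -9, 2)} : Finset (ℤ × ℤ × ℤ)) : Set (ℤ × ℤ × ℤ)) := by
    intro q hq
    refine sup_lem (x := 5) (M := 12)
      (P := fun q => q ∈ (({(2, -1, 0), (10, -9, 2)} : Finset (ℤ × ℤ × ℤ)) :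
        Set (ℤ × ℤ × ℤ))) ?_ q hq
    intro A B C h
    obtain ⟨h1, h2, h3⟩ := bound' (by norm_num) h
    obtain ⟨⟨h4, ⟨k, h5⟩, h6⟩, h7, h8⟩ := h
    simp only at h4 h5 h6
    subst h5
    have hk1 : 1 ≤ k := by omega
    have hk2 : k ≤ 18 := by omega
    have hBl : -(12 + 20 * k) < 12 * B := by omega
    have hBu : 12 * B < 12 - 20 * k := by omega
    clear h1 h2 h3 h7
    interval_cases k <;> first
      | (exfalso; omega)
      | (have hBl' : -36 ≤ B := by omega
         have hBu' : B ≤ 0 := by omega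
         interval_cases B <;> first
          | (exfalso; omega)
          | (have hC : C = 0 := by omega
             subst hC
             simp)
          | (have hC : C = 2 := by omega
             subst hC
             simp))
  unfold FC
  rw [finsum_eq_sum_of_support_subset _ hs, Finset.sum_insert (by decide), Finset.sum_singleton,
    if_pos, if_pos]
  · rfl
  · refine ⟨⟨by norm_num, by norm_num, by norm_num⟩, by norm_num, by norm_num⟩
  · refine ⟨⟨by norm_num, by norm_num, by norm_num⟩, by norm_num, by norm_num⟩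

end Pool.Agent.N490.P24
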